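import Pool.Agent.H98.RFT.Basic
import Pool.Agent.H19.RFZ.B3
import Pool.Agent.H80.RFZ.A1

/-!
# Row B3 of rft_modules: gain at a hard scale, probability
-/

set_option autoImplicit false

noncomputable section

open MeasureTheory ProbabilityTheory Filter Topology

namespace Pool.Agent.H95.RFT

open Pool.Agent.H98.RFC Pool.Agent.H98.RFZ Pool.Agent.H98.RFT Pool.Agent.H19.RFZ

theorem cont_scale (ε : ℝ) : Continuous (fun (η : Site → ℝ) (x : Site) => ε * η x) :=
  continuous_pi fun x => continuous_const.mul (continuous_apply x)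

theorem meas_QP (hCNT : D_CNT) (R : ℕ) (J : Site → ℝ) {T : ℝ} (hT : 0 < T) (ε : ℝ)
    (W : Finset Site) (A : Set Site → Finset (Site × Site) → Prop) :
    Measurable (fun η : Site → ℝ => QP R J (fun x => ε * η x) T W A) :=
  (((hCNT R J T hT W).2.1 A).comp (cont_scale ε)).measurable

theorem int_QP (hCNT : D_CNT) {R : ℕ} {J : Site → ℝ} (hJ : IsCoupling R J) {T : ℝ} (hT : 0 < T)
    (ε : ℝ) (W : Finset Site) (A : Set Site → Finset (Site × Site) → Prop) :
    Integrable (fun η : Site → ℝ => QP R J (fun x => ε * η x) T W A) gam := by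
  refine Integrable.of_bound (meas_QP hCNT R J hT ε W A).aestronglyMeasurable 1 ?_
  refine Filter.Eventually.of_forall fun η => ?_
  rw [Real.norm_eq_abs, abs_of_nonneg (QP_nonneg hJ _ hT W A)]
  exact QP_le_one hJ _ hT W A

theorem QP_or {R : ℕ} {J : Site → ℝ} (hJ : IsCoupling R J) (h : Site → ℝ) {T : ℝ} (hT : 0 < T)
    (W : Finset Site) (A B : Set Site → Finset (Site × Site) → Prop) :
    QP R J h T W (fun D ω => A D ω ∨ B D ω) ≤ QP R J h T W A + QP R J h T W B := by
  unfold QP Qd Qe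
  rw [← Qg_add]
  refine Qg_mono hJ h hT W _ _ _ _ (fun S S' ω _ _ _ _ => ?_)
  beta_reduce
  by_cases hA : A (Dq W S S') ω
  · rw [ind_pos hA]
    have := ind_nonneg (B (Dq W S S') ω)
    have := ind_le_one (A (Dq W S S') ω ∨ B (Dq W S S') ω)
    linarith
  · rw [ind_neg hA, zero_add]
    exact ind_mono (fun h => h.resolve_left hA)

theorem eb_sub {z : Site} {r s : ℕ} (hz : z ∈ eb 0 s) : eb z r ⊆ eb 0 (s + r) := by
  intro x hx
  rw [Pool.Agent.H80.RFZ.mem_eb] at hx hz ⊢
  have := Pool.Agent.H80.RFZ.nrm_tri x z 0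
  push_cast
  linarith

theorem eb_mono {z : Site} {r s : ℕ} (h : r ≤ s) : eb z r ⊆ eb z s := by
  intro x hx
  rw [Pool.Agent.H80.RFZ.mem_eb] at hx ⊢
  exact hx.trans (by exact_mod_cast h)

/-- A bad small cell in a larger domain. -/
theorem QP_bad_le (hPRD : D_PRD) (hBM : T_BM) {R : ℕ} {J : Site → ℝ} (hJ : IsCoupling R J)
    (h : Site → ℝ) {T : ℝ} (hT : 0 < T) (N : Site → ℝ) (v : ℕ) (z : Site) (Λ : Finset Site)
    (hΛ : eb z (10 * v) ⊆ Λ) :
    QP R J h T Λ (BadT N v z) ≤ QP R J h T (eb z (10 * v)) (BadT N v z) := by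
  have hb := hBM R J hJ T 1 hT N v z
  have h1 := hPRD R J hJ h T hT Λ 1 (fun _ => eb z (10 * v)) (fun _ => hΛ)
    (fun i j hij => absurd (Subsingleton.elim i j) hij) (fun _ => BadT N v z)
    (fun _ D D' ω => hb.1 D D' ω) (fun _ D ω => hb.2.1 D ω) (fun _ D ω => hb.2.2.1 D ω)
  rw [Finset.prod_const, Finset.card_univ, Fintype.card_fin, pow_one] at h1
  refine le_trans ?_ h1
  exact QP_mono hJ h hT Λ _ _ (fun D ω _ _ _ hA _ => hA)

theorem QP_congr {R : ℕ} {J : Site → ℝ} (h : Site → ℝ) (T : ℝ) (W : Finset Site)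
    {A B : Set Site → Finset (Site × Site) → Prop} (hAB : ∀ D ω, A D ω ↔ B D ω) :
    QP R J h T W A = QP R J h T W B := by
  have : A = B := by
    funext D ω
    exact propext (hAB D ω)
  rw [this]

/-- Row B3. -/
theorem pf_B3 (hB1 : T_B1) (hB2 : T_B2) (hBM : T_BM) (hCM : T_CM) (hPRD : D_PRD) (hAPR : D_APR)
    (hCNT : D_CNT) (hLOQ : D_LOQ) : T_B3 := by
  intro R J hJ T ε hT p a b a' b' α β θ κ φ δ A A' M K' n u v hp hα hαβ ha1 ha2 hb1 hb2 ha' hb' hθ
    hθ1 hκ hκ1 hφ hφ1 hδ hδ1 hN1 hN2 hA hA1 hA2 hκ2 hM hM10 hK2 hn hu1 hu2 hv hHard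
  have hA100 : 100 ≤ A' := by omega
  have hv0 : 0 < v := by omega
  have hu8 : 8 * v ≤ u := (Nat.mul_le_mul_right v hA).trans hu1
  have hu0 : 0 < u := by omega
  set Λ : Finset Site := eb 0 (10 * (A' * u)) with hΛ
  let Q : Site × Site → Prop := fun q => q.1 ∈ box (9 * A') ∧ q.2 ∈ box (9 * A') ∧
    ((A' : ℤ) - 2) ^ 2 ≤ nsq (q.2 - q.1)
  have hTT : ∀ q : Site × Site, Q q → _ := fun q hq =>
    hB2 R φ p M K' n A' u hφ hφ1 hp hM hM10 hK2 hn (by omega) q.1 q.2 hq.1 hq.2.1 hq.2.2
  choose y w hw1 hw2 hw3 using hTT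
  let Gd : Site × Site → Prop := fun q => ∃ hq : Q q, ∀ m,
    φ * |(gdot p (w q hq m) : ℝ)| ≤ |(fdet p (w q hq m) : ℝ)| ∧
      tube (y q hq m) (y q hq m + sm u (w q hq m)) (K' * u) ⊆ Λ
  let E : Site × Site → Set Site → Finset (Site × Site) → Prop := fun q D ω =>
    Gd q ∧ ∃ hq : Q q, ∀ m, CrsT u (w q hq m) (y q hq m) D ω
  -- the tubes
  have hE : ∀ q, ∫ η, QP R J (fun x => ε * η x) T Λ (E q) ∂gam ≤ (1 - δ) ^ n := by
    intro q
    have h0 : 0 ≤ (1 - δ) ^ n := pow_nonneg (by linarith) n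
    by_cases hG : Gd q
    · obtain ⟨hq, hm⟩ := hG
      have h1 : ∀ η : Site → ℝ, QP R J (fun x => ε * η x) T Λ (E q) ≤
          ∏ m : Fin n, QP R J (fun x => ε * η x) T
            (tube (y q hq m) (y q hq m + sm u (w q hq m)) (K' * u))
            (CrsT u (w q hq m) (y q hq m)) := by
        intro η
        refine le_trans ?_ (hPRD R J hJ (fun x => ε * η x) T hT Λ n
          (fun m => tube (y q hq m) (y q hq m + sm u (w q hq m)) (K' * u))
          (fun m => (hm m).2) (fun m m' hmm => hw2 q hq m m' hmm)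
          (fun m => CrsT u (w q hq m) (y q hq m))
          (fun m D D' ω => (hCM R J hJ T ε hT u (w q hq m) K' (y q hq m)).1 D D' ω)
          (fun m D ω => (hCM R J hJ T ε hT u (w q hq m) K' (y q hq m)).2.1 hK2 D ω)
          (fun m D ω => (hCM R J hJ T ε hT u (w q hq m) K' (y q hq m)).2.2.1 D ω))
        refine QP_mono hJ _ hT Λ _ _ (fun D ω _ _ _ hA => ?_)
        obtain ⟨-, hq', h2⟩ := hA
        exact h2
      have hmeas : ∀ m : Fin n, Measurable (fun η : Site → ℝ => QP R J (fun x => ε * η x) T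
            (tube (y q hq m) (y q hq m + sm u (w q hq m)) (K' * u))
            (CrsT u (w q hq m) (y q hq m))) := fun m => meas_QP hCNT R J hT ε _ _
      have hbd : ∀ (m : Fin n) (η : Site → ℝ), |QP R J (fun x => ε * η x) T
            (tube (y q hq m) (y q hq m + sm u (w q hq m)) (K' * u))
            (CrsT u (w q hq m) (y q hq m))| ≤ 1 := by
        intro m η
        rw [abs_of_nonneg (QP_nonneg hJ _ hT _ _)]
        exact QP_le_one hJ _ hT _ _
      have h2 := hAPR n (fun m => tube (y q hq m) (y q hq m + sm u (w q hq m)) (K' * u))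
        (fun m η => QP R J (fun x => ε * η x) T
            (tube (y q hq m) (y q hq m + sm u (w q hq m)) (K' * u))
            (CrsT u (w q hq m) (y q hq m)))
        (fun m m' hmm => hw2 q hq m m' hmm) hmeas hbd
        (fun m η η' h => (hLOQ R J (fun x => ε * η x) (fun x => ε * η' x) T
            (tube (y q hq m) (y q hq m + sm u (w q hq m)) (K' * u))
            (fun z hz => by rw [h z hz])).2.1 _)
      have hint : Integrable (fun η : Site → ℝ => ∏ m : Fin n, QP R J (fun x => ε * η x) T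
            (tube (y q hq m) (y q hq m + sm u (w q hq m)) (K' * u))
            (CrsT u (w q hq m) (y q hq m))) gam := by
        refine Integrable.of_bound
          (Finset.measurable_prod _ (fun m _ => hmeas m)).aestronglyMeasurable 1 ?_
        refine Filter.Eventually.of_forall fun η => ?_
        rw [Real.norm_eq_abs, Finset.abs_prod]
        exact Finset.prod_le_one (fun m _ => abs_nonneg _) (fun m _ => hbd m η)
      calc ∫ η, QP R J (fun x => ε * η x) T Λ (E q) ∂gam
          ≤ ∫ η, ∏ m : Fin n, QP R J (fun x => ε * η x) T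
            (tube (y q hq m) (y q hq m + sm u (w q hq m)) (K' * u))
            (CrsT u (w q hq m) (y q hq m)) ∂gam :=
            integral_mono (int_QP hCNT hJ hT ε Λ _) hint h1
        _ = ∏ m : Fin n, ∫ η, QP R J (fun x => ε * η x) T
            (tube (y q hq m) (y q hq m + sm u (w q hq m)) (K' * u))
            (CrsT u (w q hq m) (y q hq m)) ∂gam := h2
        _ ≤ ∏ m : Fin n, (1 - δ) := by
            refine Finset.prod_le_prod (fun m _ => ?_) fun m _ => ?_
            · exact integral_nonneg fun η => QP_nonneg hJ _ hT _ _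
            · have h3 := (hCM R J hJ T ε hT u (w q hq m) K' (y q hq m)).2.2.2.1
              unfold PA at h3
              rw [h3]
              exact hHard (w q hq m) (hw1 q hq m) (hm m).1
        _ = (1 - δ) ^ n := by rw [Finset.prod_const, Finset.card_univ, Fintype.card_fin]
    · have h1 : ∀ η : Site → ℝ, QP R J (fun x => ε * η x) T Λ (E q) = 0 := by
        intro η
        have h2 : QP R J (fun x => ε * η x) T Λ (E q) =
            1 - QP R J (fun x => ε * η x) T Λ (fun _ _ => True) := by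
          rw [← QP_not]
          exact QP_congr _ T Λ (fun D ω => ⟨fun h3 => absurd h3.1 hG, fun h3 => absurd trivial h3⟩)
        rw [h2, QP_true]
        norm_num
      simp only [h1, integral_zero]
      exact h0
  -- the union bound, fixed field
  set Zs : Finset Site := (box (18 * A * A')).filter (fun z => sm v z ∈ eb 0 (9 * (A' * u)))
    with hZs
  set Qs : Finset (Site × Site) := box (9 * A') ×ˢ box (9 * A') with hQs
  have hquen : ∀ h : Site → ℝ, QP R J h T Λ (BadT (Nq p a' b') (A' * u) 0) ≤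
      ∑ z ∈ Zs, QP R J h T (eb (sm v z) (10 * v)) (BadT (Nq p a b) v (sm v z)) +
        ∑ q ∈ Qs, QP R J h T Λ (E q) := by
    intro h
    have s1 : QP R J h T Λ (BadT (Nq p a' b') (A' * u) 0) ≤
        QP R J h T Λ (fun D ω => (∃ z ∈ Zs, BadT (Nq p a b) v (sm v z) D ω) ∨
          ∃ q ∈ Qs, E q D ω) := by
      refine QP_mono hJ h hT Λ _ _ (fun D ω _ hω _ hBad => ?_)
      have hbox : ∀ e ∈ ω, e.2 - e.1 ∈ box R := by
        intro e he
        have := hω he
        unfold prs at this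
        exact (Finset.mem_filter.1 this).2.2
      by_cases h1 : ∀ z : Site, sm v z ∈ eb 0 (9 * (A' * u)) →
          ¬ BadT (Nq p a b) v (sm v z) D ω
      · right
        obtain ⟨k, x, hx1, hx2, hx3, hx4, hx5⟩ := hBad
        obtain ⟨h2, h3⟩ := hB1 R D ω hbox p a b a' b' α β θ κ (2 * φ) A A' u v hp hα
          hαβ ha1 ha2 hb1 hb2 ha' hb' hθ hθ1 hκ hκ1 (by linarith) hN1 hN2 hA (by omega) hA1 hA2
          hκ2 hu1 (by omega) h1 k x hx1 hx2 hx3 hx4 hx5
        obtain ⟨P, hP1, hP2, hP3, hP4⟩ := rnd2 u A' hu0 (by omega) (x 0) (hx2 0 (Nat.zero_le k))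
        obtain ⟨P', hP1', hP2', hP3', hP4'⟩ := rnd2 u A' hu0 (by omega) (x k) (hx2 k le_rfl)
        have hlong : ((A' : ℤ) - 2) ^ 2 ≤ nsq (P' - P) := by
          have hu' : (0 : ℤ) < u := by exact_mod_cast hu0
          have h5 := hx4
          unfold nsq at h5
          simp only [Prod.fst_sub, Prod.snd_sub] at h5
          push_cast at h5
          unfold nsq
          simp only [Prod.fst_sub, Prod.snd_sub]
          refine long u A' hu' (by exact_mod_cast hA100) ((x k).1 - (x 0).1) ((x k).2 - (x 0).2)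
            (P'.1 - P.1) (P'.2 - P.2) ?_ ?_ ?_ ?_ h5
          · rw [mul_sub]; linarith [hP3.1, hP3.2, hP3'.1, hP3'.2]
          · rw [mul_sub]; linarith [hP3.1, hP3.2, hP3'.1, hP3'.2]
          · rw [mul_sub]; linarith [hP4.1, hP4.2, hP4'.1, hP4'.2]
          · rw [mul_sub]; linarith [hP4.1, hP4.2, hP4'.1, hP4'.2]
        have hq : Q (P, P') := ⟨hP1, hP1', hlong⟩
        have h6 := hw3 (P, P') hq D ω hbox k x hx1 hx2 hx4 hP2 hP2' h3 h2
        exact ⟨(P, P'), Finset.mem_product.2 ⟨hP1, hP1'⟩, ⟨hq, fun m => ⟨h6.1 m, h6.2.1 m⟩⟩, hq,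
          fun m => h6.2.2 m⟩
      · left
        push Not at h1
        obtain ⟨z, hz1, hz2⟩ := h1
        refine ⟨z, Finset.mem_filter.2 ⟨?_, hz1⟩, hz2⟩
        obtain ⟨⟨h5, h6⟩, h7, h8⟩ := bd_eb hz1
        unfold sm at h5 h6 h7 h8
        simp only at h5 h6 h7 h8
        push_cast at h5 h6 h7 h8
        have hv' : (0 : ℤ) < v := by exact_mod_cast hv0
        have hA0 : (0 : ℤ) ≤ A' := by positivity
        have hu' : (u : ℤ) ≤ 2 * A * v := by exact_mod_cast hu2
        have h9 : (A' : ℤ) * u ≤ A' * (2 * A * v) := mul_le_mul_of_nonneg_left hu' hA0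
        have key : ∀ t : ℤ, -(9 * (A' * (u : ℤ))) ≤ v * t → v * t ≤ 9 * (A' * (u : ℤ)) →
            -(18 * (A : ℤ) * A') ≤ t ∧ t ≤ 18 * A * A' := by
          intro t g1 g2
          constructor
          · by_contra hc
            push Not at hc
            have : v * t ≤ v * (-(18 * (A : ℤ) * A') - 1) :=
              mul_le_mul_of_nonneg_left (by omega) hv'.le
            nlinarith
          · by_contra hc
            push Not at hc
            have : v * (18 * (A : ℤ) * A' + 1) ≤ v * t :=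
              mul_le_mul_of_nonneg_left (by omega) hv'.le
            nlinarith
        rw [mem_box]
        push_cast
        exact ⟨key z.1 h5 h6, key z.2 h7 h8⟩
    refine s1.trans ((QP_or hJ h hT Λ _ _).trans (add_le_add ?_ ?_))
    · refine (QP_union hJ h hT Λ Zs (fun z => BadT (Nq p a b) v (sm v z))).trans ?_
      refine Finset.sum_le_sum fun z hz => ?_
      refine QP_bad_le hPRD hBM hJ h hT (Nq p a b) v (sm v z) Λ ?_
      have h1 := (Finset.mem_filter.1 hz).2
      refine (eb_sub h1).trans (eb_mono ?_)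
      have : 10 * v ≤ A' * u := by nlinarith
      omega
    · exact QP_union hJ h hT Λ Qs E
  -- integration
  have hpB : 0 ≤ pBT R J T ε (Nq p a b) v := (hBM R J hJ T ε hT (Nq p a b) v 0).2.2.2.2.1
  have hI1 : ∀ z ∈ Zs, Integrable (fun η : Site → ℝ => QP R J (fun x => ε * η x) T
      (eb (sm v z) (10 * v)) (BadT (Nq p a b) v (sm v z))) gam :=
    fun z _ => int_QP hCNT hJ hT ε _ _
  have hI2 : ∀ q ∈ Qs, Integrable (fun η : Site → ℝ => QP R J (fun x => ε * η x) T Λ (E q)) gam :=
    fun q _ => int_QP hCNT hJ hT ε _ _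
  have h1 : pBT R J T ε (Nq p a' b') (A' * u) ≤
      ∑ z ∈ Zs, pBT R J T ε (Nq p a b) v + ∑ q ∈ Qs, (1 - δ) ^ n := by
    calc pBT R J T ε (Nq p a' b') (A' * u)
        = ∫ η, QP R J (fun x => ε * η x) T Λ (BadT (Nq p a' b') (A' * u) 0) ∂gam := rfl
      _ ≤ ∫ η, (∑ z ∈ Zs, QP R J (fun x => ε * η x) T (eb (sm v z) (10 * v))
              (BadT (Nq p a b) v (sm v z)) +
            ∑ q ∈ Qs, QP R J (fun x => ε * η x) T Λ (E q)) ∂gam :=
          integral_mono (int_QP hCNT hJ hT ε Λ _)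
            ((integrable_finsetSum _ hI1).add (integrable_finsetSum _ hI2))
            (fun η => hquen (fun x => ε * η x))
      _ = ∑ z ∈ Zs, ∫ η, QP R J (fun x => ε * η x) T (eb (sm v z) (10 * v))
              (BadT (Nq p a b) v (sm v z)) ∂gam +
            ∑ q ∈ Qs, ∫ η, QP R J (fun x => ε * η x) T Λ (E q) ∂gam := by
          rw [integral_add (integrable_finsetSum _ hI1) (integrable_finsetSum _ hI2),
            integral_finsetSum _ hI1, integral_finsetSum _ hI2]
      _ ≤ ∑ z ∈ Zs, pBT R J T ε (Nq p a b) v + ∑ q ∈ Qs, (1 - δ) ^ n := by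
          refine add_le_add (Finset.sum_le_sum fun z _ => ?_) (Finset.sum_le_sum fun q _ => hE q)
          exact (hBM R J hJ T ε hT (Nq p a b) v (sm v z)).2.2.2.1.le
  rw [Finset.sum_const, Finset.sum_const, nsmul_eq_mul, nsmul_eq_mul] at h1
  have h2 : (Zs.card : ℝ) * pBT R J T ε (Nq p a b) v ≤
      (40 * (A : ℝ) * A') ^ 2 * pBT R J T ε (Nq p a b) v := by
    refine mul_le_mul_of_nonneg_right ?_ hpB
    have hc : Zs.card ≤ (2 * (18 * A * A') + 1) ^ 2 := by
      rw [← card_box]
      exact Finset.card_le_card (Finset.filter_subset _ _)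
    have hc' : (Zs.card : ℝ) ≤ (2 * (18 * (A : ℝ) * A') + 1) ^ 2 := by exact_mod_cast hc
    refine hc'.trans ?_
    have hAA : (1 : ℝ) ≤ A * A' := by
      have h3 : (1 : ℝ) ≤ A := by exact_mod_cast (by omega : 1 ≤ A)
      have h4 : (1 : ℝ) ≤ A' := by exact_mod_cast (by omega : 1 ≤ A')
      nlinarith
    refine pow_le_pow_left₀ (by positivity) ?_ 2
    nlinarith
  have h3 : (Qs.card : ℝ) * (1 - δ) ^ n ≤ (20 * (A' : ℝ)) ^ 4 * (1 - δ) ^ n := by
    refine mul_le_mul_of_nonneg_right ?_ (pow_nonneg (by linarith) n)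
    rw [hQs, Finset.card_product, card_box]
    push_cast
    have h4 : (1 : ℝ) ≤ A' := by exact_mod_cast (by omega : 1 ≤ A')
    rw [← pow_add]
    refine pow_le_pow_left₀ (by positivity) ?_ 4
    linarith
  linarith

end Pool.Agent.H95.RFT
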