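import Pool.Agent.H98.RFT.Basic

/-!
# Row CUA of rft_modules: adaptive cut, upper bound for the tension
-/

set_option autoImplicit false

noncomputable section

open MeasureTheory ProbabilityTheory Filter Topology

namespace Pool.Agent.H95.RFT

open Pool.Agent.H98.RFC Pool.Agent.H98.RFZ Pool.Agent.H98.RFT

open Classical in
/-- Number of sites of `M` at level `ℓ`. -/
def Yl (V M : Finset Site) (ℓ : ℕ) (D : Set Site) (ω : Finset (Site × Site)) : ℕ :=
  (M.filter (fun a => Lv V M ℓ a D ω ∧ ∀ ℓ', ℓ' < ℓ → ¬ Lv V M ℓ' a D ω)).card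

theorem opn_symm {ω : Finset (Site × Site)} {a b : Site} (h : opn ω a b) : opn ω b a :=
  h.symm

theorem Cv_of_Lv {V M : Finset Site} {ℓ : ℕ} {a : Site} {D : Set Site}
    {ω : Finset (Site × Site)} (h : Lv V M ℓ a D ω) : Cv V a D ω := by
  obtain ⟨k, x, ⟨h1, h2⟩, h3, h4, _⟩ := h
  refine ⟨k, fun i => x (k - i), ⟨fun i _ => h1 _ (Nat.sub_le _ _), ?_⟩, ?_, ?_⟩
  · intro i hi
    have e : k - i = (k - (i + 1)) + 1 := by omega
    have := h2 (k - (i + 1)) (by omega)
    simp only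
    rw [e]
    exact opn_symm this
  · simpa using h4
  · simpa using h3

theorem sum_Yl_le (V M : Finset Site) (n : ℕ) (D : Set Site) (ω : Finset (Site × Site)) :
    ∑ ℓ ∈ Finset.range n, (Yl V M ℓ D ω : ℝ) ≤ ∑ x ∈ M, ind (Cv V x D ω) := by
  classical
  have h1 : ∀ ℓ, (Yl V M ℓ D ω : ℝ) = ∑ a ∈ M, ind (Lv V M ℓ a D ω ∧
      ∀ ℓ', ℓ' < ℓ → ¬ Lv V M ℓ' a D ω) := by
    intro ℓ
    unfold Yl
    rw [Finset.card_filter]
    push_cast
    refine Finset.sum_congr rfl fun a _ => ?_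
    by_cases hp : Lv V M ℓ a D ω ∧ ∀ ℓ', ℓ' < ℓ → ¬ Lv V M ℓ' a D ω
    · rw [ind_pos hp, if_pos hp]
    · rw [ind_neg hp, if_neg hp]
  rw [Finset.sum_congr rfl (fun ℓ _ => h1 ℓ), Finset.sum_comm]
  refine Finset.sum_le_sum fun a _ => ?_
  by_cases hC : Cv V a D ω
  · rw [ind_pos hC]
    by_cases hE : ∃ ℓ ∈ Finset.range n, Lv V M ℓ a D ω ∧ ∀ ℓ', ℓ' < ℓ → ¬ Lv V M ℓ' a D ω
    · obtain ⟨ℓ, hℓ, hP⟩ := hE
      rw [Finset.sum_eq_single ℓ]
      · exact ind_le_one _
      · intro ℓ' _ hne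
        refine ind_neg ?_
        rintro ⟨h2, h3⟩
        rcases lt_or_gt_of_ne hne with h4 | h4
        · exact hP.2 _ h4 h2
        · exact h3 _ h4 hP.1
      · intro h2
        exact absurd hℓ h2
    · rw [Finset.sum_eq_zero]
      · norm_num
      · intro ℓ hℓ
        exact ind_neg (fun h2 => hE ⟨ℓ, hℓ, h2⟩)
  · rw [Finset.sum_eq_zero]
    · exact ind_nonneg _
    · intro ℓ _
      exact ind_neg (fun h2 => hC (Cv_of_Lv h2.1))

/-- The total coupling of a site to a set. -/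
theorem sum_J_le {R : ℕ} {J : Site → ℝ} (hJ : IsCoupling R J) (a : Site) (B : Finset Site) :
    ∑ b ∈ B, J (a - b) ≤ Jt R J := by
  unfold Jt
  have h1 : ∑ b ∈ B, J (a - b) = ∑ z ∈ B.image (fun b => a - b), J z := by
    rw [Finset.sum_image]
    intro x _ y _ hxy
    exact sub_right_inj.1 hxy
  rw [h1]
  have h2 : ∑ z ∈ B.image (fun b => a - b), J z =
      ∑ z ∈ (B.image (fun b => a - b)).filter (fun z => z ∈ box R), J z := by
    rw [Finset.sum_filter]
    refine Finset.sum_congr rfl fun z _ => ?_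
    by_cases hz : z ∈ box R
    · rw [if_pos hz]
    · rw [if_neg hz, hJ.range z hz]
  rw [h2]
  refine Finset.sum_le_sum_of_subset_of_nonneg ?_ (fun z _ _ => hJ.nonneg z)
  intro z hz
  exact (Finset.mem_filter.1 hz).2

/-- Averages over the disagreement set of an inequality that holds for every disagreement set. -/
theorem Qd_le_of_forall {R : ℕ} {J : Site → ℝ} (h : Site → ℝ) (T : ℝ) (W : Finset Site)
    (Φ Ψ : Set Site → Finset (Site × Site) → ℝ)
    (hΦ : ∀ D : Set Site, (↑W : Set Site)ᶜ ⊆ D →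
      ∑ ω ∈ (prs R W).powerset, bw (prs R W) (qe J T) ω * Φ D ω ≤
        ∑ ω ∈ (prs R W).powerset, bw (prs R W) (qe J T) ω * Ψ D ω) :
    Qd R J h T W Φ ≤ Qd R J h T W Ψ := by
  unfold Qd Qe Qg
  refine div_le_div_of_nonneg_right ?_ (Zf_mul_pos R J h T W _ _).le
  refine Finset.sum_le_sum fun S _ => Finset.sum_le_sum fun S' hS' => ?_
  rw [Finset.mem_powerset] at hS'
  have e : ∀ Ξ : Set Site → Finset (Site × Site) → ℝ, ∑ ω ∈ (prs R W).powerset,
      wt R J h T W (↑W)ᶜ S * wt R J h T W ∅ S' * bw (prs R W) (qe J T) ω * Ξ (Dq W S S') ω =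
      (wt R J h T W (↑W)ᶜ S * wt R J h T W ∅ S') *
        ∑ ω ∈ (prs R W).powerset, bw (prs R W) (qe J T) ω * Ξ (Dq W S S') ω := by
    intro Ξ
    rw [Finset.mul_sum]
    exact Finset.sum_congr rfl fun ω _ => by ring
  rw [e, e]
  exact mul_le_mul_of_nonneg_left (hΦ _ (compl_subset_Dq hS'))
    (mul_nonneg (Pool.Agent.H19.RFC.wt_pos R J h T W _ _).le
      (Pool.Agent.H19.RFC.wt_pos R J h T W _ _).le)

/-- Row CUA. -/
theorem pf_CUA (hADC : D_ADC) (hCUT : D_CUT) (hTEN : D_TEN) : D_CUA := by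
  intro R J hJ h T hT V Λ M hV hM n hn
  set W := Λ \ V with hW
  set θ : ℝ := QP R J h T W (Th V Λ M n) with hθ
  set E : ℝ := ∑ x ∈ M, QP R J h T W (Cv V x) with hE
  have hJt : 0 ≤ Jt R J := Finset.sum_nonneg fun z _ => hJ.nonneg z
  have hθ0 : 0 ≤ θ := QP_nonneg hJ h hT W _
  have hθ1 : θ ≤ 1 := QP_le_one hJ h hT W _
  have hE0 : 0 ≤ E := Finset.sum_nonneg fun x _ => QP_nonneg hJ h hT W _
  have hn0 : (0 : ℝ) < n := by exact_mod_cast hn
  have hterm : 0 ≤ 8 * Jt R J / n * E :=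
    mul_nonneg (div_nonneg (by linarith) hn0.le) hE0
  rcases lt_or_ge (1 / 2 : ℝ) θ with hc | hc
  · have h1 := hCUT R J hJ h T hT V V Λ (Finset.Subset.refl _) hV
    have h2 : ∑ a ∈ V, ∑ b ∈ hull R V \ V, J (a - b) * QP R J h T (Λ \ V) (Cv V a) ≤
        ∑ a ∈ V, Jt R J := by
      refine Finset.sum_le_sum fun a _ => ?_
      calc ∑ b ∈ hull R V \ V, J (a - b) * QP R J h T (Λ \ V) (Cv V a)
          ≤ ∑ b ∈ hull R V \ V, J (a - b) * 1 :=
            Finset.sum_le_sum fun b _ =>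
              mul_le_mul_of_nonneg_left (QP_le_one hJ h hT _ _) (hJ.nonneg _)
        _ = ∑ b ∈ hull R V \ V, J (a - b) := by simp
        _ ≤ Jt R J := sum_J_le hJ a _
    rw [Finset.sum_const, nsmul_eq_mul] at h2
    have h3 : 0 ≤ Jt R J * (V.card : ℝ) := mul_nonneg hJt (Nat.cast_nonneg _)
    have h4 : 4 * (Jt R J * (V.card : ℝ)) ≤ 8 * (Jt R J * (V.card : ℝ)) * θ := by nlinarith
    have h5 : 0 ≤ 2 * T * θ := by positivity
    calc tenT R J h T V Λ ≤ 4 * (Jt R J * (V.card : ℝ)) := by linarith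
      _ ≤ 8 * (Jt R J * (V.card : ℝ)) * θ := h4
      _ ≤ 8 * Jt R J / n * E + (8 * Jt R J * (V.card : ℝ) + 2 * T) * θ := by nlinarith
  · set q : ℝ := QP R J h T W (fun D ω => ¬ Cn V Λ D ω) with hq
    have hq0 : 0 < q := (hTEN R J hJ T hT V Λ hV).1 h
    set c : ℝ := 4 * Jt R J / T with hcdef
    have hc0 : 0 ≤ c := div_nonneg (by linarith) hT.le
    set m : ℝ := c / (n * (1 - θ)) * E with hm
    have h1θ : 0 < 1 - θ := by linarith
    have hVW : ∀ D : Set Site, (↑W : Set Site)ᶜ ⊆ D → (↑V : Set Site) ⊆ D := by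
      intro D hD x hx
      refine hD ?_
      rw [Set.mem_compl_iff, Finset.mem_coe, hW, Finset.mem_sdiff]
      exact fun h1 => h1.2 hx
    -- the level inequality
    have hlev : ∀ ℓ ∈ Finset.range n, Qd R J h T W (fun D ω => ind (¬ Th V Λ M n D ω) *
        Real.exp (-c * (Yl V M ℓ D ω : ℝ))) ≤ q := by
      intro ℓ hℓ
      rw [hq]
      unfold QP
      refine Qd_le_of_forall h T W _ _ ?_
      intro D hD
      exact hADC R J hJ T hT V Λ M hV hM D (hVW D hD) n ℓ (Finset.mem_range.1 hℓ)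
    have hlow : ∀ ℓ ∈ Finset.range n, Real.exp (-m) * ((1 + m) * (1 - θ) -
        c * Qd R J h T W (fun D ω => (Yl V M ℓ D ω : ℝ))) ≤ q := by
      intro ℓ hℓ
      refine le_trans ?_ (hlev ℓ hℓ)
      have e1 : Real.exp (-m) * ((1 + m) * (1 - θ) -
          c * Qd R J h T W (fun D ω => (Yl V M ℓ D ω : ℝ))) =
          Qd R J h T W (fun D ω => (Real.exp (-m) * (1 + m)) * ind (¬ Th V Λ M n D ω) +
            (-(Real.exp (-m) * c)) * (Yl V M ℓ D ω : ℝ)) := by
        unfold Qd Qe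
        rw [Qg_add, Qg_mul, Qg_mul]
        have e2 : Qg R J h T W (↑W)ᶜ ∅ (fun S S' ω => ind (¬ Th V Λ M n (Dq W S S') ω)) =
            1 - θ := by
          rw [hθ]
          exact QP_not J h T W (Th V Λ M n)
        rw [e2]; ring
      rw [e1]
      unfold Qd Qe
      refine Qg_mono hJ h hT W _ _ _ _ (fun S S' ω _ _ _ _ => ?_)
      beta_reduce
      set Y : ℝ := (Yl V M ℓ (Dq W S S') ω : ℝ) with hY
      have hY0 : 0 ≤ Y := Nat.cast_nonneg _
      by_cases ht : Th V Λ M n (Dq W S S') ω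
      · rw [ind_neg (not_not.2 ht)]
        have : 0 ≤ Real.exp (-m) * c * Y :=
          mul_nonneg (mul_nonneg (Real.exp_nonneg _) hc0) hY0
        linarith
      · rw [ind_pos ht, one_mul]
        have h2 : m - c * Y + 1 ≤ Real.exp (m - c * Y) := Real.add_one_le_exp _
        have h3 : Real.exp (-c * Y) = Real.exp (-m) * Real.exp (m - c * Y) := by
          rw [← Real.exp_add]; congr 1; ring
        rw [h3]
        have h4 := mul_le_mul_of_nonneg_left h2 (Real.exp_nonneg (-m))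
        nlinarith
    have hsum := Finset.sum_le_sum hlow
    rw [Finset.sum_const, nsmul_eq_mul, Finset.card_range, ← Finset.mul_sum,
      Finset.sum_sub_distrib, Finset.sum_const, nsmul_eq_mul, Finset.card_range,
      ← Finset.mul_sum] at hsum
    have hYs : ∑ ℓ ∈ Finset.range n, Qd R J h T W (fun D ω => (Yl V M ℓ D ω : ℝ)) ≤ E := by
      have e1 : ∑ ℓ ∈ Finset.range n, Qd R J h T W (fun D ω => (Yl V M ℓ D ω : ℝ)) =
          Qg R J h T W (↑W)ᶜ ∅ (fun S S' ω => ∑ ℓ ∈ Finset.range n,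
            (Yl V M ℓ (Dq W S S') ω : ℝ)) := by
        rw [Qg_sum]; rfl
      have e2 : E = Qg R J h T W (↑W)ᶜ ∅ (fun S S' ω => ∑ x ∈ M,
            ind (Cv V x (Dq W S S') ω)) := by
        rw [Qg_sum]; rfl
      rw [e1, e2]
      exact Qg_mono hJ h hT W _ _ _ _ (fun S S' ω _ _ _ _ => sum_Yl_le V M n _ ω)
    have hmE : c * E = n * (m * (1 - θ)) := by
      rw [hm]; field_simp
    have hkey : (1 - θ) * Real.exp (-m) ≤ q := by
      have h5 : (n : ℝ) * ((1 - θ) * Real.exp (-m)) ≤ n * q := by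
        refine le_trans ?_ hsum
        have h6 : c * ∑ ℓ ∈ Finset.range n, Qd R J h T W (fun D ω => (Yl V M ℓ D ω : ℝ)) ≤
            c * E := mul_le_mul_of_nonneg_left hYs hc0
        have h7 : (n : ℝ) * (1 - θ) ≤ n * ((1 + m) * (1 - θ)) -
            c * ∑ ℓ ∈ Finset.range n, Qd R J h T W (fun D ω => (Yl V M ℓ D ω : ℝ)) := by
          nlinarith
        have h8 := mul_le_mul_of_nonneg_left h7 (Real.exp_nonneg (-m))
        nlinarith
      exact le_of_mul_le_mul_left h5 hn0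
    have hlog : Real.log (1 - θ) - m ≤ Real.log q := by
      have h6 := Real.log_le_log (mul_pos h1θ (Real.exp_pos _)) hkey
      rwa [Real.log_mul h1θ.ne' (Real.exp_pos _).ne', Real.log_exp] at h6
    have hlogθ : -(2 * θ) ≤ Real.log (1 - θ) := by
      have h6 := Real.one_sub_inv_le_log_of_pos h1θ
      refine le_trans ?_ h6
      have h7 : (1 - θ)⁻¹ ≤ 1 + 2 * θ := by
        rw [inv_le_iff_one_le_mul₀ h1θ]
        nlinarith
      linarith
    have hTm : T * m ≤ 8 * Jt R J / n * E := by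
      have h6 : T * m = (4 * Jt R J / n * E) * (1 - θ)⁻¹ := by
        rw [hm, hcdef]; field_simp
      have h7 : (1 - θ)⁻¹ ≤ 2 := by
        rw [inv_le_iff_one_le_mul₀ h1θ]
        linarith
      have h8 : 0 ≤ 4 * Jt R J / n * E := mul_nonneg (div_nonneg (by linarith) hn0.le) hE0
      rw [h6]
      calc (4 * Jt R J / n * E) * (1 - θ)⁻¹ ≤ (4 * Jt R J / n * E) * 2 :=
            mul_le_mul_of_nonneg_left h7 h8
        _ = 8 * Jt R J / n * E := by ring
    have h9 : tenT R J h T V Λ = -(T * Real.log q) := rfl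
    rw [h9]
    have h10 := mul_le_mul_of_nonneg_left hlog hT.le
    have h11 := mul_le_mul_of_nonneg_left hlogθ hT.le
    have h12 : 0 ≤ 8 * Jt R J * (V.card : ℝ) * θ := by positivity
    nlinarith

end Pool.Agent.H95.RFT
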