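import Pool.Agent.H98.RFT.Basic
import Pool.Agent.H80.RFC.STEP
import Pool.Agent.H19.RFC.PS
import Pool.Agent.H50.RFT.INF
import Pool.Agent.H11.RFC.FAC

/-!
# Row FKF of rft_modules: the law in a region whose neighbours disagree, positive association
-/

set_option autoImplicit false

noncomputable section

open MeasureTheory ProbabilityTheory Filter Topology

namespace Pool.Agent.H95.RFT

open Pool.Agent.H98.RFC Pool.Agent.H98.RFZ Pool.Agent.H98.RFT

theorem tri_sub_comm {a b : Site} (h : Tri (a - b)) : Tri (b - a) := by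
  unfold Tri at *
  rcases h with h | h | h | h | h | h | h <;>
    · have h1 := congrArg Prod.fst h
      have h2 := congrArg Prod.snd h
      simp only [Prod.fst_sub, Prod.snd_sub] at h1 h2
      have e1 : b - a = (b.1 - a.1, b.2 - a.2) := rfl
      rw [e1]
      simp only [Prod.mk.injEq]
      omega

/-- Two configurations that agree on `F` and on the triangular neighbours of `F` have the same
energy in `F`. -/
theorem en_congr_tri {R : ℕ} {J : Site → ℝ} (hT : IsTri J) (h : Site → ℝ) (F : Finset Site)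
    (A A' : Set Site) (h1 : ∀ a ∈ F, (a ∈ A ↔ a ∈ A'))
    (h2 : ∀ a ∈ F, ∀ b, b ∉ F → Tri (b - a) → (b ∈ A ↔ b ∈ A')) :
    en R J h F A = en R J h F A' := by
  have hs : ∀ a, (a ∈ A ↔ a ∈ A') → sg A a = sg A' a := by
    intro a ha
    unfold sg
    by_cases hA : a ∈ A
    · rw [if_pos hA, if_pos (ha.1 hA)]
    · rw [if_neg hA, if_neg (fun h => hA (ha.2 h))]
  have hn : ∀ a b, (a ∈ F ∨ b ∈ F) → Tri (a - b) → (a ∈ A ↔ a ∈ A') ∧ (b ∈ A ↔ b ∈ A') := by
    intro a b hab ht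
    by_cases ha : a ∈ F
    · by_cases hb : b ∈ F
      · exact ⟨h1 a ha, h1 b hb⟩
      · exact ⟨h1 a ha, h2 a ha b hb (tri_sub_comm ht)⟩
    · rcases hab with ha' | hb
      · exact absurd ha' ha
      · exact ⟨h2 b hb a ha ht, h1 b hb⟩
  unfold en
  have e1 : ∑ p ∈ prs R F, J (p.1 - p.2) * sg A p.1 * sg A p.2 =
      ∑ p ∈ prs R F, J (p.1 - p.2) * sg A' p.1 * sg A' p.2 := by
    refine Finset.sum_congr rfl fun p hp => ?_
    by_cases hJ : J (p.1 - p.2) = 0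
    · rw [hJ]; ring
    · have hp' : p.1 ∈ F ∨ p.2 ∈ F := by
        unfold prs at hp
        exact (Finset.mem_filter.1 hp).2.1
      have := hn p.1 p.2 hp' (hT _ hJ)
      rw [hs _ this.1, hs _ this.2]
  have e2 : ∑ x ∈ F, h x * sg A x = ∑ x ∈ F, h x * sg A' x :=
    Finset.sum_congr rfl fun x hx => by rw [hs x (h1 x hx)]
  rw [e1, e2]

/-- Splitting of a triple sum. -/
theorem sum_split (hPS : T_PS) (F Λ : Finset Site) (hF : F ⊆ Λ) (P P' : Finset (Site × Site))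
    (hP : P' ⊆ P) (f : Finset Site → Finset Site → Finset (Site × Site) → ℝ) :
    ∑ S ∈ Λ.powerset, ∑ S' ∈ Λ.powerset, ∑ ω ∈ P.powerset, f S S' ω =
      ∑ So ∈ (Λ \ F).powerset, ∑ So' ∈ (Λ \ F).powerset, ∑ ωo ∈ (P \ P').powerset,
        ∑ Si ∈ F.powerset, ∑ Si' ∈ F.powerset, ∑ ωi ∈ P'.powerset,
          f (So ∪ Si) (So' ∪ Si') (ωo ∪ ωi) := by
  have h1 : ∀ g : Finset Site → ℝ, ∑ S ∈ Λ.powerset, g S =
      ∑ So ∈ (Λ \ F).powerset, ∑ Si ∈ F.powerset, g (So ∪ Si) := by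
    intro g
    conv_lhs => rw [← Finset.sdiff_union_of_subset hF]
    exact hPS Site (Λ \ F) F Finset.sdiff_disjoint g
  have h2 : ∀ g : Finset (Site × Site) → ℝ, ∑ S ∈ P.powerset, g S =
      ∑ So ∈ (P \ P').powerset, ∑ Si ∈ P'.powerset, g (So ∪ Si) := by
    intro g
    conv_lhs => rw [← Finset.sdiff_union_of_subset hP]
    exact hPS (Site × Site) (P \ P') P' Finset.sdiff_disjoint g
  rw [h1]
  refine Finset.sum_congr rfl fun So _ => ?_
  have e1 : ∑ Si ∈ F.powerset, ∑ S' ∈ Λ.powerset, ∑ ω ∈ P.powerset, f (So ∪ Si) S' ω =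
      ∑ Si ∈ F.powerset, ∑ So' ∈ (Λ \ F).powerset, ∑ Si' ∈ F.powerset,
        ∑ ωo ∈ (P \ P').powerset, ∑ ωi ∈ P'.powerset, f (So ∪ Si) (So' ∪ Si') (ωo ∪ ωi) := by
    refine Finset.sum_congr rfl fun Si _ => ?_
    rw [h1]
    refine Finset.sum_congr rfl fun So' _ => Finset.sum_congr rfl fun Si' _ => ?_
    exact h2 _
  rw [e1, Finset.sum_comm]
  refine Finset.sum_congr rfl fun So' _ => ?_
  have e2 : ∑ Si ∈ F.powerset, ∑ Si' ∈ F.powerset, ∑ ωo ∈ (P \ P').powerset,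
        ∑ ωi ∈ P'.powerset, f (So ∪ Si) (So' ∪ Si') (ωo ∪ ωi) =
      ∑ Si ∈ F.powerset, ∑ ωo ∈ (P \ P').powerset, ∑ Si' ∈ F.powerset,
        ∑ ωi ∈ P'.powerset, f (So ∪ Si) (So' ∪ Si') (ωo ∪ ωi) :=
    Finset.sum_congr rfl fun Si _ => Finset.sum_comm
  rw [e2, Finset.sum_comm]

theorem mem_Dq {W S S' : Finset Site} {z : Site} :
    z ∈ Dq W S S' ↔ (z ∈ S ∨ z ∉ W) ∧ z ∉ S' := by
  unfold Dq
  simp only [Set.mem_sdiff, Set.mem_union, Finset.mem_coe, Set.mem_compl_iff]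

theorem Dq_mono {W S₁ S₂ S₁' S₂' : Finset Site} (h : S₁ ⊆ S₂) (h' : S₂' ⊆ S₁') :
    Dq W S₁ S₁' ⊆ Dq W S₂ S₂' := by
  intro z hz
  rw [mem_Dq] at hz ⊢
  exact ⟨hz.1.imp (fun h1 => h h1) id, fun h2 => hz.2 (h' h2)⟩

/-- The inner sum if the outer neighbours of `F` disagree. -/
theorem inner_eq (hDM : T_DM) {R : ℕ} {J : Site → ℝ} (hTri : IsTri J) (h : Site → ℝ) (T : ℝ)
    (F Λ : Finset Site) (hF : F ⊆ Λ) (So So' : Finset Site) (hSo : So ⊆ Λ \ F)
    (hSo' : So' ⊆ Λ \ F) (ωo : Finset (Site × Site)) (hωo : ωo ⊆ prs R Λ \ prs R F)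
    (hA : ∀ a ∈ F, ∀ b, b ∉ F → Tri (b - a) → b ∈ Dq Λ So So')
    (Ψ : Finset Site → Finset Site → Finset (Site × Site) → ℝ) :
    ∑ Si ∈ F.powerset, ∑ Si' ∈ F.powerset, ∑ ωi ∈ (prs R F).powerset,
      wt R J h T Λ (↑Λ)ᶜ (So ∪ Si) * wt R J h T Λ ∅ (So' ∪ Si') *
        bw (prs R Λ) (qe J T) (ωo ∪ ωi) * Ψ (So ∪ Si) (So' ∪ Si') (ωo ∪ ωi) =
      (Pool.Agent.H80.RFC.rho R J h T F Λ (↑So ∪ (↑Λ)ᶜ) *
        Pool.Agent.H80.RFC.rho R J h T F Λ (↑So' ∪ ∅) *
        bw (prs R Λ \ prs R F) (qe J T) ωo * (Zf R J h T F (↑F)ᶜ * Zf R J h T F ∅)) *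
      Qg R J h T F (↑F)ᶜ ∅ (fun Si Si' ωi => Ψ (So ∪ Si) (So' ∪ Si') (ωo ∪ ωi)) := by
  have hZ := Zf_mul_pos R J h T F (↑F)ᶜ ∅
  have hw1 : ∀ Si, Si ⊆ F → wt R J h T F (↑So ∪ (↑Λ)ᶜ) Si = wt R J h T F (↑F)ᶜ Si := by
    intro Si hSi
    unfold wt
    have : en R J h F (↑Si ∪ (↑So ∪ (↑Λ)ᶜ)) = en R J h F (↑Si ∪ (↑F)ᶜ) := by
      refine en_congr_tri hTri h F _ _ ?_ ?_
      · intro a ha
        simp only [Set.mem_union, Finset.mem_coe, Set.mem_compl_iff]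
        constructor
        · rintro (h1 | h1 | h1)
          · exact Or.inl h1
          · exact absurd ha (Finset.mem_sdiff.1 (hSo h1)).2
          · exact absurd (hF ha) h1
        · rintro (h1 | h1)
          · exact Or.inl h1
          · exact absurd ha h1
      · intro a ha b hb ht
        have hb' := (mem_Dq.1 (hA a ha b hb ht)).1
        simp only [Set.mem_union, Finset.mem_coe, Set.mem_compl_iff]
        exact ⟨fun _ => Or.inr hb, fun _ => Or.inr hb'⟩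
    rw [this]
  have hw2 : ∀ Si, Si ⊆ F → wt R J h T F (↑So' ∪ ∅) Si = wt R J h T F ∅ Si := by
    intro Si hSi
    unfold wt
    have : en R J h F (↑Si ∪ (↑So' ∪ ∅)) = en R J h F (↑Si ∪ ∅) := by
      refine en_congr_tri hTri h F _ _ ?_ ?_
      · intro a ha
        simp only [Set.mem_union, Finset.mem_coe, Set.mem_empty_iff_false, or_false]
        constructor
        · rintro (h1 | h1)
          · exact h1
          · exact absurd ha (Finset.mem_sdiff.1 (hSo' h1)).2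
        · exact Or.inl
      · intro a ha b hb ht
        have hb' := (mem_Dq.1 (hA a ha b hb ht)).2
        simp only [Set.mem_union, Finset.mem_coe, Set.mem_empty_iff_false, or_false]
        exact ⟨fun h1 => h1.elim id (fun h2 => absurd h2 hb'), Or.inl⟩
    rw [this]
  unfold Qg
  rw [mul_assoc, mul_comm (Zf R J h T F (↑F)ᶜ * Zf R J h T F ∅), div_mul_cancel₀ _ hZ.ne',
    Finset.mul_sum]
  refine Finset.sum_congr rfl fun Si hSi => ?_
  rw [Finset.mul_sum]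
  refine Finset.sum_congr rfl fun Si' hSi' => ?_
  rw [Finset.mul_sum]
  refine Finset.sum_congr rfl fun ωi hωi => ?_
  rw [Finset.mem_powerset] at hSi hSi' hωi
  rw [Pool.Agent.H80.RFC.wt_split hDM R J h T F Λ hF _ So Si hSi,
    Pool.Agent.H80.RFC.wt_split hDM R J h T F Λ hF _ So' Si' hSi', hw1 Si hSi, hw2 Si' hSi',
    Pool.Agent.H11.RFC.bw_union (Pool.Agent.H19.RFC.prs_mono hF) (qe J T) hωo hωi]
  ring

/-- Row FKF. -/
theorem pf_FKF (hFKG : D_FKG) (hINF : D_INF) (hPS : T_PS) (hDM : T_DM) : R_FKF := by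
  intro R J hJ hTri h T hT F Λ hF x hx A hA1 hA2 G hG
  have hPP : prs R F ⊆ prs R Λ := Pool.Agent.H19.RFC.prs_mono hF
  have hZ := Zf_mul_pos R J h T Λ (↑Λ)ᶜ ∅
  have hinf := ((hINF R J hJ h T hT).1 F x hx).1
  unfold QP Qd Qe Qg
  rw [← mul_div_assoc]
  refine div_le_div_of_nonneg_right ?_ hZ.le
  rw [sum_split hPS F Λ hF _ _ hPP, sum_split hPS F Λ hF _ _ hPP, Finset.mul_sum]
  refine Finset.sum_le_sum fun So hSo => ?_
  rw [Finset.mul_sum]
  refine Finset.sum_le_sum fun So' hSo' => ?_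
  rw [Finset.mul_sum]
  refine Finset.sum_le_sum fun ωo hωo => ?_
  rw [Finset.mem_powerset] at hSo hSo' hωo
  have hAD : ∀ Si Si', Si ⊆ F → Si' ⊆ F →
      (A (Dq Λ (So ∪ Si) (So' ∪ Si')) ↔ A (Dq Λ So So')) := by
    intro Si Si' hSi hSi'
    have e : Dq Λ (So ∪ Si) (So' ∪ Si') \ ↑F = Dq Λ So So' \ ↑F := by
      ext z
      simp only [Set.mem_sdiff, mem_Dq, Finset.mem_union, Finset.mem_coe]
      constructor
      · rintro ⟨⟨h1, h2⟩, h3⟩
        refine ⟨⟨?_, fun h4 => h2 (Or.inl h4)⟩, h3⟩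
        rcases h1 with (h1 | h1) | h1
        · exact Or.inl h1
        · exact absurd (hSi h1) h3
        · exact Or.inr h1
      · rintro ⟨⟨h1, h2⟩, h3⟩
        refine ⟨⟨?_, ?_⟩, h3⟩
        · rcases h1 with h1 | h1
          · exact Or.inl (Or.inl h1)
          · exact Or.inr h1
        · rintro (h4 | h4)
          · exact h2 h4
          · exact h3 (hSi' h4)
    exact ⟨hA1 _ _ e, hA1 _ _ e.symm⟩
  by_cases hA : A (Dq Λ So So')
  · have hN := hA2 _ hA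
    rw [inner_eq hDM hTri h T F Λ hF So So' hSo hSo' ωo hωo hN
        (fun S S' ω => ind (A (Dq Λ S S') ∧ G (Dq Λ S S') ω)),
      inner_eq hDM hTri h T F Λ hF So So' hSo hSo' ωo hωo hN
        (fun S S' ω => ind ((A (Dq Λ S S') ∧ G (Dq Λ S S') ω) ∧ conn (Dq Λ S S') F ω x))]
    set c : ℝ := Pool.Agent.H80.RFC.rho R J h T F Λ (↑So ∪ (↑Λ)ᶜ) *
        Pool.Agent.H80.RFC.rho R J h T F Λ (↑So' ∪ ∅) *
        bw (prs R Λ \ prs R F) (qe J T) ωo * (Zf R J h T F (↑F)ᶜ * Zf R J h T F ∅) with hc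
    have hc0 : 0 ≤ c := by
      rw [hc]
      refine mul_nonneg (mul_nonneg (mul_nonneg (Real.exp_nonneg _) (Real.exp_nonneg _)) ?_)
        (Zf_mul_pos R J h T F (↑F)ᶜ ∅).le
      exact bw_prs_nonneg hJ hT _ _
    have hfkg := hFKG R J hJ h T hT F (↑F)ᶜ ∅ disjoint_compl_left (Set.empty_disjoint _)
      (fun Si Si' ωi => ind (G (Dq Λ (So ∪ Si) (So' ∪ Si')) (ωo ∪ ωi)))
      (fun Si Si' ωi => ind (conn (Dq F Si Si') F ωi x)) (by
        intro S₁ S₂ S₁' S₂' ω₁ ω₂ h1 _ h2 _ h3 _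
        refine ⟨ind_mono ?_, ind_mono ?_⟩
        · exact hG _ _ _ _ (Dq_mono (Finset.union_subset_union (Finset.Subset.refl _) h1)
            (Finset.union_subset_union (Finset.Subset.refl _) h2))
            (Finset.union_subset_union (Finset.Subset.refl _) h3)
        · exact Pool.Agent.H50.RFT.conn_mono (Dq_mono h1 h2) (fun a b _ hab =>
            hab.imp (fun h4 => h3 h4) (fun h4 => h3 h4)))
    have e1 : Qg R J h T F (↑F)ᶜ ∅ (fun Si Si' ωi => ind (conn (Dq F Si Si') F ωi x)) =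
        inf1 R J h T F x := by
      rw [hinf]; rfl
    rw [e1] at hfkg
    have e2 : Qg R J h T F (↑F)ᶜ ∅ (fun Si Si' ωi =>
        ind (A (Dq Λ (So ∪ Si) (So' ∪ Si')) ∧ G (Dq Λ (So ∪ Si) (So' ∪ Si')) (ωo ∪ ωi))) ≤
        Qg R J h T F (↑F)ᶜ ∅ (fun Si Si' ωi =>
          ind (G (Dq Λ (So ∪ Si) (So' ∪ Si')) (ωo ∪ ωi))) :=
      Qg_mono hJ h hT F _ _ _ _ (fun S S' ω _ _ _ _ => ind_mono (fun h1 => h1.2))
    have e3 : Qg R J h T F (↑F)ᶜ ∅ (fun Si Si' ωi =>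
          ind (G (Dq Λ (So ∪ Si) (So' ∪ Si')) (ωo ∪ ωi)) *
            ind (conn (Dq F Si Si') F ωi x)) ≤
        Qg R J h T F (↑F)ᶜ ∅ (fun Si Si' ωi =>
          ind ((A (Dq Λ (So ∪ Si) (So' ∪ Si')) ∧
            G (Dq Λ (So ∪ Si) (So' ∪ Si')) (ωo ∪ ωi)) ∧
            conn (Dq Λ (So ∪ Si) (So' ∪ Si')) F (ωo ∪ ωi) x)) := by
      refine Qg_mono hJ h hT F _ _ _ _ (fun S S' ω hS hS' hω hpos => ?_)
      rw [← ind_and]
      refine ind_mono ?_
      rintro ⟨h1, h2⟩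
      refine ⟨⟨(hAD S S' hS hS').2 hA, h1⟩, ?_⟩
      obtain ⟨y, hy, hr⟩ := h2
      refine ⟨y, hy, Relation.ReflTransGen.mono (fun a b hab => ?_) _ _ hr⟩
      obtain ⟨ha, haD, hbD, hop⟩ := hab
      have hmem : ∀ z ∈ F, z ∈ Dq F S S' → z ∈ Dq Λ (So ∪ S) (So' ∪ S') := by
        intro z hz hzD
        rw [mem_Dq] at hzD ⊢
        obtain ⟨h3, h4⟩ := hzD
        refine ⟨Or.inl (Finset.mem_union_right _ (h3.resolve_right (not_not.2 hz))), ?_⟩
        rw [Finset.mem_union]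
        rintro (h5 | h5)
        · exact (Finset.mem_sdiff.1 (hSo' h5)).2 hz
        · exact h4 h5
      refine ⟨ha, hmem a ha haD, ?_, ?_⟩
      · by_cases hb : b ∈ F
        · exact hmem b hb hbD
        · have ht : Tri (b - a) := by
            rcases hop with h5 | h5
            · have := hpos _ h5
              exact tri_sub_comm (hTri _ this.ne')
            · have := hpos _ h5
              exact hTri _ this.ne'
          have h6 := hN a ha b hb ht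
          rw [mem_Dq] at h6 ⊢
          refine ⟨h6.1.imp (fun h7 => Finset.mem_union_left _ h7) id, ?_⟩
          rw [Finset.mem_union]
          rintro (h7 | h7)
          · exact h6.2 h7
          · exact hb (hS' h7)
      · exact hop.imp (fun h5 => Finset.mem_union_right _ h5)
          (fun h5 => Finset.mem_union_right _ h5)
    have hi0 : 0 ≤ inf1 R J h T F x := ((hINF R J hJ h T hT).1 F x hx).2.1
    have k1 := mul_le_mul_of_nonneg_left e2 hi0
    have k2 := mul_le_mul_of_nonneg_left (k1.trans ((mul_comm _ _).le.trans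
      (hfkg.trans e3))) hc0
    calc _ = c * (inf1 R J h T F x * Qg R J h T F (↑F)ᶜ ∅ (fun Si Si' ωi =>
        ind (A (Dq Λ (So ∪ Si) (So' ∪ Si')) ∧ G (Dq Λ (So ∪ Si) (So' ∪ Si')) (ωo ∪ ωi)))) := by
          ring
      _ ≤ _ := k2
  · have e1 : ∑ Si ∈ F.powerset, ∑ Si' ∈ F.powerset, ∑ ωi ∈ (prs R F).powerset,
        wt R J h T Λ (↑Λ)ᶜ (So ∪ Si) * wt R J h T Λ ∅ (So' ∪ Si') *
        bw (prs R Λ) (qe J T) (ωo ∪ ωi) * ind (A (Dq Λ (So ∪ Si) (So' ∪ Si')) ∧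
          G (Dq Λ (So ∪ Si) (So' ∪ Si')) (ωo ∪ ωi)) = 0 := by
      refine Finset.sum_eq_zero fun Si hSi => Finset.sum_eq_zero fun Si' hSi' =>
        Finset.sum_eq_zero fun ωi _ => ?_
      rw [Finset.mem_powerset] at hSi hSi'
      rw [ind_neg (fun h1 => hA ((hAD Si Si' hSi hSi').1 h1.1)), mul_zero]
    rw [e1, mul_zero]
    refine Finset.sum_nonneg fun Si _ => Finset.sum_nonneg fun Si' _ =>
      Finset.sum_nonneg fun ωi _ => ?_
    exact mul_nonneg (mul_nonneg (mul_nonneg (Pool.Agent.H19.RFC.wt_pos R J h T Λ _ _).le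
      (Pool.Agent.H19.RFC.wt_pos R J h T Λ _ _).le) (bw_prs_nonneg hJ hT _ _)) (ind_nonneg _)

end Pool.Agent.H95.RFT
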