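import Pool.Agent.H98.RFT.Targets3

/-!
# Row FST of rft_modules: the largest set whose neighbours disagree
-/

set_option autoImplicit false

noncomputable section

namespace Pool.Agent.H95.RFT

open Pool.Agent.H98.RFC Pool.Agent.H98.RFZ Pool.Agent.H98.RFT

theorem mem_Fs {E : Finset Site} {D : Set Site} {a : Site} :
    a ∈ Fs E D ↔ ∃ F : Finset Site, F ⊆ E ∧
      (∀ a ∈ F, ∀ b, b ∉ F → Tri (b - a) → b ∈ D) ∧ a ∈ F := by
  unfold Fs
  simp only [Finset.mem_biUnion, Finset.mem_filter, Finset.mem_powerset, id]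
  constructor
  · rintro ⟨F, ⟨h1, h2⟩, h3⟩
    exact ⟨F, h1, h2, h3⟩
  · rintro ⟨F, h1, h2, h3⟩
    exact ⟨F, ⟨h1, h2⟩, h3⟩

theorem Fs_subset (E : Finset Site) (D : Set Site) : Fs E D ⊆ E := by
  intro a ha
  obtain ⟨F, h1, _, h3⟩ := mem_Fs.1 ha
  exact h1 h3

theorem subset_Fs {E : Finset Site} {D : Set Site} {F : Finset Site} (h1 : F ⊆ E)
    (h2 : ∀ a ∈ F, ∀ b, b ∉ F → Tri (b - a) → b ∈ D) : F ⊆ Fs E D :=
  fun _ ha => mem_Fs.2 ⟨F, h1, h2, ha⟩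

theorem Fs_closed (E : Finset Site) (D : Set Site) :
    ∀ a ∈ Fs E D, ∀ b, b ∉ Fs E D → Tri (b - a) → b ∈ D := by
  intro a ha b hb ht
  obtain ⟨F, h1, h2, h3⟩ := mem_Fs.1 ha
  exact h2 a h3 b (fun h => hb (subset_Fs h1 h2 h)) ht

/-- Row FST. -/
theorem pf_FST : R_FST := by
  intro E D
  refine ⟨Fs_subset E D, Fs_closed E D, fun F h1 h2 => subset_Fs h1 h2, ?_⟩
  intro D' h
  have h1 : Fs E D ⊆ Fs E D' := by
    refine subset_Fs (Fs_subset E D) ?_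
    intro a ha b hb ht
    have : b ∈ D \ ↑(Fs E D) := ⟨Fs_closed E D a ha b hb ht, hb⟩
    rw [h] at this
    exact this.1
  refine Finset.Subset.antisymm ?_ h1
  refine subset_Fs (Fs_subset E D') ?_
  intro a ha b hb ht
  have : b ∈ D' \ ↑(Fs E D) := ⟨Fs_closed E D' a ha b hb ht, fun h2 => hb (h1 h2)⟩
  rw [← h] at this
  exact this.1

end Pool.Agent.H95.RFT
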